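import Pool.Agent.H27.G.R_seed8.Y969.GP.Def

/-!
Project GP: grouping into reduced fractions, and bounds for the coefficients.
-/

set_option autoImplicit false

namespace Pool.Agent.Y545.GP

open Complex Filter Topology MeasureTheory Set Pool.Agent.Y969.GP

/-- the reduced pair -/
def red (p : ℕ × ℕ) : ℕ × ℕ := (p.1 / Nat.gcd p.1 p.2, p.2 / Nat.gcd p.1 p.2)

lemma mem_PS {X : ℕ} {p : ℕ × ℕ} : p ∈ PS X ↔ 1 ≤ p.1 ∧ 1 ≤ p.2 ∧ p.1 * p.2 ≤ X := by
  simp only [PS, Finset.mem_filter, Finset.mem_product, Finset.mem_Icc]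
  constructor
  · rintro ⟨⟨⟨h1, _⟩, ⟨h2, _⟩⟩, h3⟩
    exact ⟨h1, h2, h3⟩
  · rintro ⟨h1, h2, h3⟩
    refine ⟨⟨⟨h1, ?_⟩, ⟨h2, ?_⟩⟩, h3⟩
    · nlinarith
    · nlinarith

lemma mem_FR {X : ℕ} {p : ℕ × ℕ} :
    p ∈ FR X ↔ 1 ≤ p.1 ∧ 1 ≤ p.2 ∧ p.1 * p.2 ≤ X ∧ Nat.Coprime p.1 p.2 := by
  simp only [FR, Finset.mem_filter, mem_PS]
  tauto

lemma red_mul {g a b : ℕ} (hg : 1 ≤ g) (hab : Nat.Coprime a b) : red (g * a, g * b) = (a, b) := by
  have h1 : Nat.gcd (g * a) (g * b) = g := by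
    rw [Nat.gcd_mul_left, Nat.Coprime.gcd_eq_one hab, mul_one]
  simp only [red, h1]
  rw [Nat.mul_div_cancel_left _ (by omega), Nat.mul_div_cancel_left _ (by omega)]

lemma red_spec {p : ℕ × ℕ} : (Nat.gcd p.1 p.2 * (red p).1, Nat.gcd p.1 p.2 * (red p).2) = p := by
  simp only [red]
  rw [Nat.mul_div_cancel' (Nat.gcd_dvd_left _ _), Nat.mul_div_cancel' (Nat.gcd_dvd_right _ _)]

lemma red_mem {X : ℕ} {p : ℕ × ℕ} (hp : p ∈ PS X) : red p ∈ FR X := by
  rw [mem_PS] at hp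
  obtain ⟨h1, h2, h3⟩ := hp
  have hg : 0 < Nat.gcd p.1 p.2 := Nat.gcd_pos_of_pos_left _ h1
  rw [mem_FR]
  simp only [red]
  have h4 : 1 ≤ p.1 / Nat.gcd p.1 p.2 := Nat.div_pos (Nat.gcd_le_left _ h1) hg
  have h5 : 1 ≤ p.2 / Nat.gcd p.1 p.2 := Nat.div_pos (Nat.gcd_le_right _ h2) hg
  refine ⟨h4, h5, ?_, Nat.coprime_div_gcd_div_gcd hg⟩
  exact (Nat.mul_le_mul (Nat.div_le_self _ _) (Nat.div_le_self _ _)).trans h3

/-- the multiples of a reduced pair -/
lemma fiber {X : ℕ} {p : ℕ × ℕ} (hp : p ∈ FR X) :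
    (PS X).filter (fun q => red q = p) =
      ((Finset.Icc 1 X).filter (fun g => g * g * (p.1 * p.2) ≤ X)).image
        (fun g => (g * p.1, g * p.2)) := by
  rw [mem_FR] at hp
  obtain ⟨h1, h2, h3, h4⟩ := hp
  ext q
  simp only [Finset.mem_filter, Finset.mem_image, Finset.mem_Icc, mem_PS]
  constructor
  · rintro ⟨⟨g1, g2, g3⟩, rfl⟩
    refine ⟨Nat.gcd q.1 q.2, ⟨⟨Nat.gcd_pos_of_pos_left _ g1, ?_⟩, ?_⟩, red_spec⟩
    · exact (Nat.gcd_le_left _ g1).trans (by nlinarith)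
    · have h5 : Nat.gcd q.1 q.2 * (red q).1 = q.1 := congrArg Prod.fst (red_spec (p := q))
      have h6 : Nat.gcd q.1 q.2 * (red q).2 = q.2 := congrArg Prod.snd (red_spec (p := q))
      calc Nat.gcd q.1 q.2 * Nat.gcd q.1 q.2 * ((red q).1 * (red q).2)
          = (Nat.gcd q.1 q.2 * (red q).1) * (Nat.gcd q.1 q.2 * (red q).2) := by ring
        _ = q.1 * q.2 := by rw [h5, h6]
        _ ≤ X := g3
  · rintro ⟨g, ⟨⟨g1, g2⟩, g3⟩, rfl⟩
    refine ⟨⟨Nat.mul_pos g1 h1, Nat.mul_pos g1 h2, ?_⟩, red_mul g1 h4⟩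
    calc g * p.1 * (g * p.2) = g * g * (p.1 * p.2) := by ring
      _ ≤ X := g3

lemma lam_mul {g : ℕ} {p : ℕ × ℕ} (hg : 1 ≤ g) (h1 : 1 ≤ p.1) (h2 : 1 ≤ p.2) :
    lam (g * p.1, g * p.2) = lam p := by
  have hg' : (g : ℝ) ≠ 0 := by positivity
  have h1' : (p.1 : ℝ) ≠ 0 := by positivity
  have h2' : (p.2 : ℝ) ≠ 0 := by positivity
  simp only [lam]
  push_cast
  rw [Real.log_mul hg' h2', Real.log_mul hg' h1']
  ring

/-- one variable: the sum over the multiples -/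
lemma fiber_sum {X : ℕ} {p : ℕ × ℕ} (hp : p ∈ FR X) (u : ℝ) :
    ∑ q ∈ (PS X).filter (fun q => red q = p), (co q u : ℂ) * cexp (I * ((u * lam q : ℝ) : ℂ)) =
      (cr X p u : ℂ) * cexp (I * ((u * lam p : ℝ) : ℂ)) := by
  rw [fiber hp]
  rw [mem_FR] at hp
  obtain ⟨h1, h2, h3, h4⟩ := hp
  rw [Finset.sum_image]
  · simp only [cr]
    push_cast
    rw [Finset.sum_mul]
    refine Finset.sum_congr rfl fun g hg => ?_
    have hg1 : 1 ≤ g := (Finset.mem_Icc.1 (Finset.mem_filter.1 hg).1).1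
    rw [lam_mul hg1 h1 h2]
  · intro g _ g' _ h
    have h5 : g * p.1 = g' * p.1 := congrArg Prod.fst h
    exact Nat.eq_of_mul_eq_mul_right h1 h5

lemma part1 (X : ℕ) (u : ℝ) :
    PX X u = ∑ p ∈ FR X, (cr X p u : ℂ) * cexp (I * ((u * lam p : ℝ) : ℂ)) := by
  simp only [PX]
  rw [← Finset.sum_fiberwise_of_maps_to (t := FR X) (g := red) (fun p hp => red_mem hp)]
  exact Finset.sum_congr rfl fun p hp => fiber_sum hp u

lemma part2 (n X : ℕ) (c : Fin n → ℝ) (t : ℝ) :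
    MX X c t = ∑ q ∈ (Fintype.piFinset fun _ : Fin (n + 1) => FR X).filter
      (fun q => ∏ j, (q j).1 = ∏ j, (q j).2),
      ∏ j, ((cr X (q j) (t + cc c j) : ℂ) * cexp (I * (((t + cc c j) * lam (q j) : ℝ) : ℂ))) := by
  simp only [MX]
  rw [← Finset.sum_fiberwise_of_maps_to
    (t := (Fintype.piFinset fun _ : Fin (n + 1) => FR X).filter
      (fun q => ∏ j, (q j).1 = ∏ j, (q j).2)) (g := fun q j => red (q j))]
  · refine Finset.sum_congr rfl fun q' hq' => ?_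
    rw [Finset.mem_filter, Fintype.mem_piFinset] at hq'
    obtain ⟨hq1, hq2⟩ := hq'
    have hset : (((Fintype.piFinset fun _ : Fin (n + 1) => PS X).filter
        (fun q => ∏ j, (q j).1 = ∏ j, (q j).2)).filter fun q => (fun j => red (q j)) = q') =
        Fintype.piFinset fun j => (PS X).filter (fun p => red p = q' j) := by
      ext q
      simp only [Finset.mem_filter, Fintype.mem_piFinset]
      constructor
      · rintro ⟨⟨g1, _⟩, g3⟩ j
        exact ⟨g1 j, congrFun g3 j⟩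
      · intro h
        refine ⟨⟨fun j => (h j).1, ?_⟩, funext fun j => (h j).2⟩
        have h5 : ∀ j, (q j).1 = Nat.gcd (q j).1 (q j).2 * (q' j).1 := by
          intro j
          rw [← (h j).2]
          exact (congrArg Prod.fst (red_spec (p := q j))).symm
        have h6 : ∀ j, (q j).2 = Nat.gcd (q j).1 (q j).2 * (q' j).2 := by
          intro j
          rw [← (h j).2]
          exact (congrArg Prod.snd (red_spec (p := q j))).symm
        calc ∏ j, (q j).1 = ∏ j, (Nat.gcd (q j).1 (q j).2 * (q' j).1) :=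
              Finset.prod_congr rfl fun j _ => h5 j
          _ = ∏ j, (Nat.gcd (q j).1 (q j).2 * (q' j).2) := by
              rw [Finset.prod_mul_distrib, Finset.prod_mul_distrib, hq2]
          _ = ∏ j, (q j).2 := Finset.prod_congr rfl fun j _ => (h6 j).symm
    rw [hset, ← Finset.prod_univ_sum (fun j => (PS X).filter (fun p => red p = q' j))
      (fun j p => (co p (t + cc c j) : ℂ) * cexp (I * (((t + cc c j) * lam p : ℝ) : ℂ)))]
    exact Finset.prod_congr rfl fun j _ => fiber_sum (hq1 j) _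
  · intro q hq
    rw [Finset.mem_filter, Fintype.mem_piFinset] at hq
    obtain ⟨hq1, hq2⟩ := hq
    rw [Finset.mem_filter, Fintype.mem_piFinset]
    refine ⟨fun j => red_mem (hq1 j), ?_⟩
    have h5 : ∀ j, (q j).1 = Nat.gcd (q j).1 (q j).2 * (red (q j)).1 := fun j =>
      (congrArg Prod.fst (red_spec (p := q j))).symm
    have h6 : ∀ j, (q j).2 = Nat.gcd (q j).1 (q j).2 * (red (q j)).2 := fun j =>
      (congrArg Prod.snd (red_spec (p := q j))).symm
    have h7 : (∏ j, Nat.gcd (q j).1 (q j).2) * ∏ j, (red (q j)).1 =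
        (∏ j, Nat.gcd (q j).1 (q j).2) * ∏ j, (red (q j)).2 := by
      rw [← Finset.prod_mul_distrib, ← Finset.prod_mul_distrib]
      calc ∏ j, (Nat.gcd (q j).1 (q j).2 * (red (q j)).1) = ∏ j, (q j).1 :=
            Finset.prod_congr rfl fun j _ => (h5 j).symm
        _ = ∏ j, (q j).2 := hq2
        _ = _ := Finset.prod_congr rfl fun j _ => h6 j
    refine Nat.eq_of_mul_eq_mul_left ?_ h7
    apply Finset.prod_pos
    intro j _
    exact Nat.gcd_pos_of_pos_left _ (mem_PS.1 (hq1 j)).1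

noncomputable section

/-- the first derivative of `co` -/
def D1 (q : ℕ × ℕ) (u : ℝ) : ℝ :=
  2 * (√(ht q))⁻¹ * (V1 (2 * Real.pi * ht q / u) * (-(2 * Real.pi * ht q) / u ^ 2))

/-- the second derivative of `co` -/
def D2 (q : ℕ × ℕ) (u : ℝ) : ℝ :=
  2 * (√(ht q))⁻¹ * (deriv V1 (2 * Real.pi * ht q / u) * (-(2 * Real.pi * ht q) / u ^ 2) *
    (-(2 * Real.pi * ht q) / u ^ 2) +
    V1 (2 * Real.pi * ht q / u) * (2 * (2 * Real.pi * ht q) / u ^ 3))

end

lemma hasDeriv_inv {A u : ℝ} (hu : 0 < u) : HasDerivAt (fun u : ℝ => A / u) (-A / u ^ 2) u := by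
  have h := (hasDerivAt_inv hu.ne').const_mul A
  have e : (fun u : ℝ => A / u) = fun u => A * u⁻¹ := by
    funext x; rw [div_eq_mul_inv]
  have e2 : -A / u ^ 2 = A * -(u ^ 2)⁻¹ := by
    rw [div_eq_mul_inv]
    ring
  rw [e, e2]
  exact h

lemma hasDeriv_inv2 {A u : ℝ} (hu : 0 < u) :
    HasDerivAt (fun u : ℝ => -A / u ^ 2) (2 * A / u ^ 3) u := by
  have h := ((hasDerivAt_pow 2 u).inv (pow_ne_zero 2 hu.ne')).const_mul (-A)
  have e : (fun u : ℝ => -A / u ^ 2) = fun u => -A * (u ^ 2)⁻¹ := by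
    funext x; rw [div_eq_mul_inv]
  have e2 : 2 * A / u ^ 3 = -A * (-(((2 : ℕ) : ℝ) * u ^ (2 - 1)) / (u ^ 2) ^ 2) := by
    have hu' : u ≠ 0 := hu.ne'
    norm_num
    field_simp
  rw [e, e2]
  exact h

lemma ht_pos {q : ℕ × ℕ} (h1 : 1 ≤ q.1) (h2 : 1 ≤ q.2) : 0 < ht q := by
  simp only [ht]
  positivity

lemma has1 (h : S_V) {q : ℕ × ℕ} (hq : 0 < ht q) {u : ℝ} (hu : 0 < u) :
    HasDerivAt (co q) (D1 q u) u := by
  have hx : 0 < 2 * Real.pi * ht q / u := by positivity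
  have h1 := (h.2.1 _ hx).comp u (hasDeriv_inv (A := 2 * Real.pi * ht q) hu)
  have h2 := h1.const_mul (2 * (√(ht q))⁻¹)
  exact h2

lemma has2 (h : S_V) {q : ℕ × ℕ} (hq : 0 < ht q) {u : ℝ} (hu : 0 < u) :
    HasDerivAt (D1 q) (D2 q u) u := by
  have hx : 0 < 2 * Real.pi * ht q / u := by positivity
  have h1 := (h.2.2.1 _ hx).hasDerivAt.comp u (hasDeriv_inv (A := 2 * Real.pi * ht q) hu)
  have h2 := (h1.mul (hasDeriv_inv2 (A := 2 * Real.pi * ht q) hu)).const_mul (2 * (√(ht q))⁻¹)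
  exact h2

lemma cont2 (h : S_V) {q : ℕ × ℕ} (hq : 0 < ht q) {u : ℝ} (hu : 0 < u) :
    ContinuousAt (D2 q) u := by
  have hx : 0 < 2 * Real.pi * ht q / u := by positivity
  have c0 : ContinuousAt (fun u : ℝ => 2 * Real.pi * ht q / u) u :=
    (hasDeriv_inv (A := 2 * Real.pi * ht q) hu).continuousAt
  have c1 : ContinuousAt (fun u : ℝ => deriv V1 (2 * Real.pi * ht q / u)) u :=
    ContinuousAt.comp (f := fun u : ℝ => 2 * Real.pi * ht q / u)
      (h.2.2.2.2.1.continuousAt (Ioi_mem_nhds hx)) c0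
  have c2 : ContinuousAt (fun u : ℝ => V1 (2 * Real.pi * ht q / u)) u :=
    ContinuousAt.comp (f := fun u : ℝ => 2 * Real.pi * ht q / u)
      (h.2.2.1 _ hx).continuousAt c0
  have c3 : ContinuousAt (fun u : ℝ => -(2 * Real.pi * ht q) / u ^ 2) u :=
    (hasDeriv_inv2 (A := 2 * Real.pi * ht q) hu).continuousAt
  have c4 : ContinuousAt (fun u : ℝ => 2 * (2 * Real.pi * ht q) / u ^ 3) u :=
    continuousAt_const.div (continuousAt_id.pow 3) (pow_ne_zero 3 hu.ne')
  exact continuousAt_const.mul (((c1.mul c3).mul c3).add (c2.mul c4))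

lemma harm (X : ℕ) : ∑ g ∈ Finset.Icc 1 X, ((g : ℝ))⁻¹ ≤ 1 + Real.log X := by
  have h := harmonic_le_one_add_log X
  rw [harmonic_eq_sum_Icc] at h
  push_cast at h
  exact h

/-- sums over the multiples -/
lemma sum_bound {X : ℕ} {p : ℕ × ℕ} (f : ℕ × ℕ → ℝ) (K : ℝ) (hK : 0 ≤ K)
    (hf : ∀ q : ℕ × ℕ, 1 ≤ q.1 → 1 ≤ q.2 → |f q| ≤ K * (√(ht q))⁻¹) (h1 : 1 ≤ p.1) (h2 : 1 ≤ p.2) :
    |∑ g ∈ (Finset.Icc 1 X).filter (fun g => g * g * (p.1 * p.2) ≤ X), f (g * p.1, g * p.2)| ≤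
      K * (1 + Real.log X) * (√(ht p))⁻¹ := by
  have hp := ht_pos h1 h2
  calc |∑ g ∈ (Finset.Icc 1 X).filter (fun g => g * g * (p.1 * p.2) ≤ X), f (g * p.1, g * p.2)|
      ≤ ∑ g ∈ (Finset.Icc 1 X).filter (fun g => g * g * (p.1 * p.2) ≤ X),
          |f (g * p.1, g * p.2)| := Finset.abs_sum_le_sum_abs _ _
    _ ≤ ∑ g ∈ (Finset.Icc 1 X).filter (fun g => g * g * (p.1 * p.2) ≤ X),
          K * (√(ht p))⁻¹ * (g : ℝ)⁻¹ := by
        apply Finset.sum_le_sum
        intro g hg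
        have hg1 : 1 ≤ g := (Finset.mem_Icc.1 (Finset.mem_filter.1 hg).1).1
        refine (hf (g * p.1, g * p.2) (Nat.mul_pos hg1 h1) (Nat.mul_pos hg1 h2)).trans
          (le_of_eq ?_)
        have hh : ht (g * p.1, g * p.2) = (g : ℝ) ^ 2 * ht p := by
          simp only [ht]
          push_cast
          ring
        rw [hh, Real.sqrt_mul (by positivity), Real.sqrt_sq (by positivity), mul_inv]
        ring
    _ ≤ ∑ g ∈ Finset.Icc 1 X, K * (√(ht p))⁻¹ * (g : ℝ)⁻¹ := by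
        apply Finset.sum_le_sum_of_subset_of_nonneg (Finset.filter_subset _ _)
        intro g _ _
        positivity
    _ = K * (√(ht p))⁻¹ * ∑ g ∈ Finset.Icc 1 X, (g : ℝ)⁻¹ := by rw [Finset.mul_sum]
    _ ≤ K * (√(ht p))⁻¹ * (1 + Real.log X) := by
        apply mul_le_mul_of_nonneg_left (harm X)
        positivity
    _ = K * (1 + Real.log X) * (√(ht p))⁻¹ := by ring

theorem t_CR (h : S_V) : S_CR := by
  refine ⟨part1, part2, ?_⟩
  obtain ⟨C, hC, hCb⟩ := h.2.2.2.1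
  refine ⟨6 * C + 2, by positivity, ?_⟩
  intro X p hp u hu
  rw [mem_FR] at hp
  obtain ⟨h1, h2, h3, h4⟩ := hp
  set G := (Finset.Icc 1 X).filter (fun g => g * g * (p.1 * p.2) ≤ X) with hG
  have hGq : ∀ g ∈ G, 0 < ht (g * p.1, g * p.2) := by
    intro g hg
    have hg1 : 1 ≤ g := (Finset.mem_Icc.1 (Finset.mem_filter.1 hg).1).1
    exact ht_pos (Nat.mul_pos hg1 h1) (Nat.mul_pos hg1 h2)
  have hd1 : ∀ v : ℝ, 0 < v → HasDerivAt (cr X p) (∑ g ∈ G, D1 (g * p.1, g * p.2) v) v := by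
    intro v hv
    have := HasDerivAt.fun_sum (u := G) (A := fun g => co (g * p.1, g * p.2))
      (A' := fun g => D1 (g * p.1, g * p.2) v) (x := v) (fun g hg => has1 h (hGq g hg) hv)
    exact this
  have hd2 : ∀ v : ℝ, 0 < v → HasDerivAt (fun v => ∑ g ∈ G, D1 (g * p.1, g * p.2) v)
      (∑ g ∈ G, D2 (g * p.1, g * p.2) v) v := by
    intro v hv
    exact HasDerivAt.fun_sum (u := G) (A := fun g => D1 (g * p.1, g * p.2))
      (A' := fun g => D2 (g * p.1, g * p.2) v) (x := v) (fun g hg => has2 h (hGq g hg) hv)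
  have he1 : ∀ v : ℝ, 0 < v → deriv (cr X p) =ᶠ[𝓝 v] fun v => ∑ g ∈ G, D1 (g * p.1, g * p.2) v := by
    intro v hv
    filter_upwards [Ioi_mem_nhds hv] with w hw
    exact (hd1 w hw).deriv
  have hdd : ∀ v : ℝ, 0 < v → HasDerivAt (deriv (cr X p)) (∑ g ∈ G, D2 (g * p.1, g * p.2) v) v :=
    fun v hv => (hd2 v hv).congr_of_eventuallyEq (he1 v hv)
  have he2 : deriv (deriv (cr X p)) =ᶠ[𝓝 u] fun v => ∑ g ∈ G, D2 (g * p.1, g * p.2) v := by
    filter_upwards [Ioi_mem_nhds hu] with w hw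
    exact (hdd w hw).deriv
  refine ⟨(hd1 u hu).differentiableAt, (hdd u hu).differentiableAt, ?_, ?_, ?_, ?_⟩
  · refine ContinuousAt.congr ?_ he2.symm
    exact tendsto_finsetSum _ fun g hg => cont2 h (hGq g hg) hu
  · have hb := sum_bound (X := X) (p := p) (fun q => co q u) 2 (by norm_num) (by
      intro q hq1 hq2
      have hq := ht_pos hq1 hq2
      have hx : 0 < 2 * Real.pi * ht q / u := by positivity
      obtain ⟨v1, v2⟩ := h.1 _ hx
      simp only [co]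
      rw [abs_of_nonneg (by positivity)]
      have : 0 ≤ 2 * (√(ht q))⁻¹ := by positivity
      nlinarith) h1 h2
    refine hb.trans ?_
    have hl : 0 ≤ 1 + Real.log X := by
      have := Real.log_natCast_nonneg X
      linarith
    apply mul_le_mul_of_nonneg_right _ (by positivity)
    apply mul_le_mul_of_nonneg_right _ hl
    linarith
  · rw [(hd1 u hu).deriv, Finset.mul_sum]
    have hb := sum_bound (X := X) (p := p) (fun q => u * D1 q u) (2 * C) (by positivity) (by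
      intro q hq1 hq2
      have hq := ht_pos hq1 hq2
      have hx : 0 < 2 * Real.pi * ht q / u := by positivity
      obtain ⟨v1, _⟩ := hCb _ hx
      have e : u * D1 q u = -(2 * (√(ht q))⁻¹) *
          (2 * Real.pi * ht q / u * V1 (2 * Real.pi * ht q / u)) := by
        simp only [D1]
        field_simp
      rw [e, abs_mul, abs_neg, abs_of_nonneg (by positivity : (0:ℝ) ≤ 2 * (√(ht q))⁻¹)]
      calc 2 * (√(ht q))⁻¹ * |2 * Real.pi * ht q / u * V1 (2 * Real.pi * ht q / u)|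
          ≤ 2 * (√(ht q))⁻¹ * C := mul_le_mul_of_nonneg_left v1 (by positivity)
        _ = 2 * C * (√(ht q))⁻¹ := by ring) h1 h2
    refine hb.trans ?_
    have hl : 0 ≤ 1 + Real.log X := by
      have := Real.log_natCast_nonneg X
      linarith
    apply mul_le_mul_of_nonneg_right _ (by positivity)
    apply mul_le_mul_of_nonneg_right _ hl
    linarith
  · rw [he2.self_of_nhds, Finset.mul_sum]
    have hb := sum_bound (X := X) (p := p) (fun q => u ^ 2 * D2 q u) (6 * C) (by positivity) (by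
      intro q hq1 hq2
      have hq := ht_pos hq1 hq2
      have hx : 0 < 2 * Real.pi * ht q / u := by positivity
      obtain ⟨v1, v2⟩ := hCb _ hx
      have e : u ^ 2 * D2 q u = (2 * (√(ht q))⁻¹) *
          ((2 * Real.pi * ht q / u) ^ 2 * deriv V1 (2 * Real.pi * ht q / u) +
            2 * (2 * Real.pi * ht q / u * V1 (2 * Real.pi * ht q / u))) := by
        simp only [D2]
        field_simp
      rw [e, abs_mul, abs_of_nonneg (by positivity : (0:ℝ) ≤ 2 * (√(ht q))⁻¹)]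
      have h5 : |(2 * Real.pi * ht q / u) ^ 2 * deriv V1 (2 * Real.pi * ht q / u) +
            2 * (2 * Real.pi * ht q / u * V1 (2 * Real.pi * ht q / u))| ≤ 3 * C := by
        refine (abs_add_le _ _).trans ?_
        rw [abs_mul 2, abs_two]
        linarith
      calc 2 * (√(ht q))⁻¹ * _ ≤ 2 * (√(ht q))⁻¹ * (3 * C) :=
            mul_le_mul_of_nonneg_left h5 (by positivity)
        _ = 6 * C * (√(ht q))⁻¹ := by ring) h1 h2
    refine hb.trans ?_
    have hl : 0 ≤ 1 + Real.log X := by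
      have := Real.log_natCast_nonneg X
      linarith
    apply mul_le_mul_of_nonneg_right _ (by positivity)
    apply mul_le_mul_of_nonneg_right _ hl
    linarith

end Pool.Agent.Y545.GP
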